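import Pool.Agent.H65.Ul.AllPairs
import Pool.Agent.H65.Um.Main

/-!
# Even terms of the Ulam sequences `U(4, v)` for `v ≡ 3 (mod 4)`, `v + 1` not a power of two
-/

set_option autoImplicit false

namespace Pool.Agent.Results.MP_bd7991_nt.EvenTermsThreeModFour

open Pool.Agent.H65.Ul

/-- **Even terms of `U(4, v)`.** Let `v > 4` with `v ≡ 3 (mod 4)` and `v + 1` not a power of two,
and let `S` be the set of terms of the Ulam sequence with initial terms `4` and `v`.  The even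
terms are exactly `4`, `2 v + 4` and `4 v + 4`. -/
theorem result (v : ℕ) (hv : 4 < v) (hm : v % 4 = 3) (hp : ∀ k : ℕ, v + 1 ≠ 2 ^ k) (S : Set ℕ)
    (h1 : ∀ n : ℕ, n ≤ v → (n ∈ S ↔ (n = 4 ∨ n = v)))
    (h2 : ∀ n : ℕ, v < n →
      (n ∈ S ↔ ∃! p : ℕ × ℕ, p.1 < p.2 ∧ p.1 ∈ S ∧ p.2 ∈ S ∧ p.1 + p.2 = n)) :
    {n : ℕ | n ∈ S ∧ Even n} = {4, 2 * v + 4, 4 * v + 4} := by
  have h11 : 11 ≤ v := by
    by_contra h
    have h7 : v = 7 := by omega
    exact hp 3 (by omega)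
  refine even_terms v (by omega) h11 ?_ S h1 h2
  by_cases h15 : v % 16 = 15
  · exact Pool.Agent.H65.Um.pairs v h15 hp
  · exact all_pairs v h11 (by omega)

end Pool.Agent.Results.MP_bd7991_nt.EvenTermsThreeModFour
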