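import Pool.Agent.H65.CF.C4.All
import Pool.Agent.H65.CE.Fin

/-!
# Even terms of the Ulam sequences with initial terms `8` and `u ≥ 7` odd
-/

set_option autoImplicit false

namespace Pool.Agent.Results.MP_bd7991_nt.InitialTermEight

open Pool.Agent.H65.CE

/-- **Even terms of the Ulam sequences with initial terms `u` and `8`.**  Let `u ≥ 7` be odd and
let `S` be the set of terms of the Ulam sequence with initial terms `u` and `8` (in increasing
order).  The even terms are exactly the six numbers `8`, `8 + 2 u`, `8 + 4 u`, `8 + 6 u`,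
`8 + 8 u` and `20 u`. -/
theorem result (u : ℕ) (hu : 7 ≤ u) (hodd : Odd u) (S : Set ℕ)
    (h1 : ∀ n : ℕ, n ≤ max u 8 → (n ∈ S ↔ (n = u ∨ n = 8)))
    (h2 : ∀ n : ℕ, max u 8 < n →
      (n ∈ S ↔ ∃! p : ℕ × ℕ, p.1 < p.2 ∧ p.1 ∈ S ∧ p.2 ∈ S ∧ p.1 + p.2 = n)) :
    {n : ℕ | n ∈ S ∧ Even n} = {8, 8 + 2 * u, 8 + 4 * u, 8 + 6 * u, 8 + 8 * u, 20 * u} ∧
      {n : ℕ | n ∈ S ∧ Even n}.ncard = 6 := by
  have ho : u % 2 = 1 := Nat.odd_iff.1 hodd
  have hco : Nat.Coprime 4 u := by
    have h : Nat.Coprime 2 u := by rw [Nat.coprime_two_left, Nat.odd_iff]; exact ho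
    exact Nat.Coprime.mul_left h h
  obtain ⟨X, hX⟩ := exists_seq u 4 (by omega) (by omega)
  have h := even_terms u 4 hu ho (by norm_num) hco hX
    (Pool.Agent.H65.CF.C4.good4 u hu ho X hX) S h1 h2
  rw [h]
  constructor
  · ext n
    simp only [Set.mem_setOf_eq, Set.mem_insert_iff, Set.mem_singleton_iff]
    constructor
    · rintro (⟨j, hj, rfl⟩ | rfl)
      · have hj' : j = 0 ∨ j = 1 ∨ j = 2 ∨ j = 3 ∨ j = 4 := by omega
        rcases hj' with rfl | rfl | rfl | rfl | rfl
        · left; ring
        · right; left; ring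
        · right; right; left; ring
        · right; right; right; left; ring
        · right; right; right; right; left; ring
      · right; right; right; right; right; ring
    · rintro (rfl | rfl | rfl | rfl | rfl | rfl)
      · exact Or.inl ⟨0, by omega, by ring⟩
      · exact Or.inl ⟨1, by omega, by ring⟩
      · exact Or.inl ⟨2, by omega, by ring⟩
      · exact Or.inl ⟨3, by omega, by ring⟩
      · exact Or.inl ⟨4, by omega, by ring⟩
      · exact Or.inr (by ring)
  · exact even_card u 4 (by omega) (by omega)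

end Pool.Agent.Results.MP_bd7991_nt.InitialTermEight
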