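import Pool.Agent.H65.CE.G7
import Pool.Agent.H65.CE.G9
import Pool.Agent.H65.CE.G11
import Pool.Agent.H65.CE.G13
import Pool.Agent.H65.CE.G15
import Pool.Agent.H65.CE.Fin

/-!
# Even terms of the Ulam sequences with initial terms `u` odd, `7 ≤ u ≤ 15`, and `v ≥ 6` even
-/

set_option autoImplicit false

namespace Pool.Agent.Results.MP_bd7991_nt.OddTermUpToFifteen

open Pool.Agent.H65.CE

/-- **Even terms of the Ulam sequences with initial terms `u` and `v`.**  Let `u` be odd with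
`7 ≤ u ≤ 15`, let `v ≥ 6` be even and coprime to `u`, and let `S` be the set of terms of the Ulam
sequence with initial terms `u` and `v`.  The even terms are exactly `v + 2 j u` for
`0 ≤ j ≤ v / 2` and `(2 v + 4) u`; their number is `v / 2 + 2`. -/
theorem result (u v : ℕ) (hu : 7 ≤ u) (hu15 : u ≤ 15) (hodd : Odd u) (hv : 6 ≤ v) (hev : Even v)
    (hco : Nat.Coprime u v) (S : Set ℕ)
    (h1 : ∀ n : ℕ, n ≤ max u v → (n ∈ S ↔ (n = u ∨ n = v)))
    (h2 : ∀ n : ℕ, max u v < n →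
      (n ∈ S ↔ ∃! p : ℕ × ℕ, p.1 < p.2 ∧ p.1 ∈ S ∧ p.2 ∈ S ∧ p.1 + p.2 = n)) :
    {n : ℕ | n ∈ S ∧ Even n} = {n : ℕ | (∃ j ≤ v / 2, n = v + 2 * j * u) ∨ n = (2 * v + 4) * u} ∧
      {n : ℕ | n ∈ S ∧ Even n}.ncard = v / 2 + 2 := by
  refine even_terms' u v hu hodd hv hev hco ?_ S h1 h2
  intro m hm hco' X hX
  have ho : u % 2 = 1 := Nat.odd_iff.1 hodd
  have hcases : u = 7 ∨ u = 9 ∨ u = 11 ∨ u = 13 ∨ u = 15 := by omega
  rcases hcases with rfl | rfl | rfl | rfl | rfl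
  · exact good7 m hm hco' hX
  · exact good9 m hm hco' hX
  · exact good11 m hm hco' hX
  · exact good13 m hm hco' hX
  · exact good15 m hm hco' hX

end Pool.Agent.Results.MP_bd7991_nt.OddTermUpToFifteen
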